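import Mathlib

/-! One step of the box theorem of Erdős for dense multipartite hypergraphs. -/

set_option autoImplicit false

namespace Pool.Agent.W39.Box
open Finset

lemma inj_count {n t : ℕ} (ht : 1 ≤ t) (hn : t ≤ n) :
    (n : ℝ) ^ t * (1 - (t : ℝ) ^ 2 / n) ≤ (n.descFactorial t : ℝ) := by
  have hn0 : (0 : ℝ) < n := by exact_mod_cast (by omega : 0 < n)
  have h1 : ((n + 1 - t : ℕ) : ℝ) ^ t ≤ (n.descFactorial t : ℝ) := by
    exact_mod_cast Nat.pow_sub_le_descFactorial n t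
  have h2 : ((n + 1 - t : ℕ) : ℝ) = n * (1 + (-((t : ℝ) - 1) / n)) := by
    rw [Nat.cast_sub (by omega)]
    push_cast
    field_simp
    ring
  have ht1 : (1 : ℝ) ≤ t := by exact_mod_cast ht
  have htn : (t : ℝ) ≤ n := by exact_mod_cast hn
  have h3 : (-2 : ℝ) ≤ -((t : ℝ) - 1) / n := by
    rw [le_div_iff₀ hn0]
    nlinarith
  have h4 := one_add_mul_le_pow h3 t
  rw [h2, mul_pow] at h1
  refine le_trans ?_ h1
  apply mul_le_mul_of_nonneg_left _ (by positivity)
  refine le_trans ?_ h4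
  have h5 : (t : ℝ) * (-((t : ℝ) - 1) / n) = -((t : ℝ) ^ 2 / n) + t / n := by
    field_simp
    ring
  rw [h5]
  have : 0 ≤ (t : ℝ) / n := by positivity
  linarith

lemma step {V Y : Type*} [Fintype V] [Fintype Y] (t : ℕ) (ht : 1 ≤ t) (δ : ℝ) (hδ : 0 < δ)
    (hδ1 : δ ≤ 1) (hY : 0 < Fintype.card Y) (f : V → Y → ℝ)
    (hf0 : ∀ v y, 0 ≤ f v y) (hf1 : ∀ v y, f v y ≤ 1)
    (hE : δ * Fintype.card V * Fintype.card Y ≤ ∑ y, ∑ v, f v y)
    (hn : (t : ℝ) ^ 2 ≤ δ ^ t / 2 * Fintype.card V) :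
    ∃ τ : Fin t → V, Function.Injective τ ∧
      δ ^ t / 2 * Fintype.card Y ≤ ∑ y, ∏ i, f (τ i) y := by
  classical
  set n := Fintype.card V with hnV
  set M := Fintype.card Y with hM
  have ht1 : (1 : ℝ) ≤ t := by exact_mod_cast ht
  have hdt : 0 < δ ^ t := by positivity
  have hdt1 : δ ^ t ≤ 1 := pow_le_one₀ hδ.le hδ1
  have hn0 : (0 : ℝ) < n := by
    by_contra hcon
    push Not at hcon
    have : (n : ℝ) = 0 := le_antisymm hcon (Nat.cast_nonneg n)
    rw [this, mul_zero] at hn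
    nlinarith
  have hM0 : (0 : ℝ) < M := by exact_mod_cast hY
  have htn : t ≤ n := by
    have h1 : (t : ℝ) ≤ n := by nlinarith
    exact_mod_cast h1
  set F : (Fin t → V) → ℝ := fun τ => ∑ y, ∏ i, f (τ i) y with hF
  -- the total
  have htot : (M : ℝ) * (δ * n) ^ t ≤ ∑ τ, F τ := by
    have h1 : ∑ τ, F τ = ∑ y, (∑ v, f v y) ^ t := by
      rw [hF, Finset.sum_comm]
      apply Finset.sum_congr rfl
      intro y _
      rw [Fintype.sum_pow]
    rw [h1]
    obtain ⟨s, rfl⟩ : ∃ s, t = s + 1 := ⟨t - 1, by omega⟩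
    have h2 := pow_sum_div_card_le_sum_pow (s := (Finset.univ : Finset Y))
      (f := fun y => ∑ v, f v y) (fun y _ => Finset.sum_nonneg (fun v _ => hf0 v y)) s
    refine le_trans ?_ h2
    rw [Finset.card_univ, ← hM, le_div_iff₀ (by positivity)]
    calc (M : ℝ) * (δ * n) ^ (s + 1) * M ^ s = (δ * n * M) ^ (s + 1) := by ring
      _ ≤ _ := by
        apply pow_le_pow_left₀ (by positivity)
        exact hE
  by_contra hcon
  push Not at hcon
  set I : Finset (Fin t → V) := Finset.univ.filter Function.Injective with hI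
  have hIcard : I.card = n.descFactorial t := by
    have h1 : Fintype.card (Fin t ↪ V) = n.descFactorial t := by
      rw [Fintype.card_embedding_eq, Fintype.card_fin]
    rw [← h1, hI, ← Fintype.card_subtype]
    exact Fintype.card_congr (Equiv.subtypeInjectiveEquivEmbedding _ _)
  have hIn : (n : ℝ) ^ t * (1 - δ ^ t / 2) ≤ I.card := by
    rw [hIcard]
    refine le_trans ?_ (inj_count ht htn)
    apply mul_le_mul_of_nonneg_left _ (by positivity)
    have : (t : ℝ) ^ 2 / n ≤ δ ^ t / 2 := by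
      rw [div_le_iff₀ hn0]
      exact hn
    linarith
  have hI0 : (0 : ℝ) < I.card := by
    refine lt_of_lt_of_le ?_ hIn
    apply mul_pos (by positivity)
    linarith
  have hIne : I.Nonempty := Finset.card_pos.1 (by exact_mod_cast hI0)
  have hall : (Finset.univ : Finset (Fin t → V)).card = n ^ t := by
    rw [Finset.card_univ, Fintype.card_fun, Fintype.card_fin]
  have hIle : (I.card : ℝ) ≤ (n : ℝ) ^ t := by
    have : I.card ≤ n ^ t := by
      rw [← hall]
      exact Finset.card_le_univ _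
    exact_mod_cast this
  have hF1 : ∀ τ, F τ ≤ M := by
    intro τ
    calc F τ ≤ ∑ _y : Y, (1 : ℝ) := by
          apply Finset.sum_le_sum
          intro y _
          exact Finset.prod_le_one (fun i _ => hf0 _ _) (fun i _ => hf1 _ _)
      _ = M := by simp [hM]
  have hsplit : ∑ τ, F τ = ∑ τ ∈ I, F τ + ∑ τ ∈ Iᶜ, F τ := (Finset.sum_add_sum_compl I F).symm
  have h1 : ∑ τ ∈ I, F τ < I.card * (δ ^ t / 2 * M) := by
    calc ∑ τ ∈ I, F τ < ∑ _τ ∈ I, (δ ^ t / 2 * M) := by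
          apply Finset.sum_lt_sum_of_nonempty hIne
          intro τ hτ
          exact hcon τ (Finset.mem_filter.1 hτ).2
      _ = I.card * (δ ^ t / 2 * M) := by rw [Finset.sum_const, nsmul_eq_mul]
  have h2 : ∑ τ ∈ Iᶜ, F τ ≤ ((n : ℝ) ^ t - I.card) * M := by
    calc ∑ τ ∈ Iᶜ, F τ ≤ ∑ _τ ∈ Iᶜ, (M : ℝ) := Finset.sum_le_sum (fun τ _ => hF1 τ)
      _ = ((n : ℝ) ^ t - I.card) * M := by
        rw [Finset.sum_const, nsmul_eq_mul, Finset.card_compl, Fintype.card_fun, Fintype.card_fin,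
          ← hnV, Nat.cast_sub (by exact_mod_cast hIle)]
        push_cast
        ring
  have h3 : ((n : ℝ) ^ t - I.card) * M ≤ (n : ℝ) ^ t * (δ ^ t / 2) * M := by
    apply mul_le_mul_of_nonneg_right _ hM0.le
    linarith
  have h4 : (I.card : ℝ) * (δ ^ t / 2 * M) ≤ (n : ℝ) ^ t * (δ ^ t / 2 * M) := by
    apply mul_le_mul_of_nonneg_right hIle (by positivity)
  have h5 : (M : ℝ) * (δ * n) ^ t = (n : ℝ) ^ t * (δ ^ t / 2) * M + (n : ℝ) ^ t * (δ ^ t / 2 * M) := by
    rw [mul_pow]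
    ring
  linarith

end Pool.Agent.W39.Box
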