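import Pool.Agent.H319R3.PO.P17

/-! Möller maps: the valuation condition of `hit` holds for every admissible choice of the offsets. -/

set_option autoImplicit false

namespace Pool.Agent.W39
open Pool.Agent.H319R3.GC Pool.Agent.H319R3.DN Pool.Agent.H319R3.PO Finset Filter Topology

variable {d : ℕ} {m r : ℕ → ℤ}

theorem toNat_mod (h : 2 ≤ d) (x : ℤ) :
    ((x % d).toNat : ℤ) = x % d ∧ (x % d).toNat < d := by
  have hd : (0 : ℤ) < d := by exact_mod_cast (by omega : 0 < d)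
  have h0 : 0 ≤ x % d := Int.emod_nonneg _ (by omega)
  have h1 : x % d < d := Int.emod_lt_of_pos _ hd
  have h2 : ((x % d).toNat : ℤ) = x % d := Int.toNat_of_nonneg h0
  refine ⟨h2, ?_⟩
  have : ((x % d).toNat : ℤ) < (d : ℤ) := by rw [h2]; exact h1
  exact_mod_cast this

theorem Tm_eq (h : Adm d m r) (x : ℤ) :
    (d : ℤ) * Tm d m r x = m (x % d).toNat * x - r (x % d).toNat := by
  obtain ⟨h1, h2⟩ := toNat_mod h.two_le x
  unfold Tm
  apply Int.mul_ediv_cancel'
  have h3 := h.adm _ h2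
  have h4 : (d : ℤ) ∣ m (x % d).toNat * (x - ((x % d).toNat : ℤ)) := by
    apply Dvd.dvd.mul_left
    rw [h1]
    exact Int.dvd_self_sub_emod
  have h5 := dvd_add h3 h4
  have h6 : m (x % d).toNat * ((x % d).toNat : ℤ) - r (x % d).toNat
      + m (x % d).toNat * (x - ((x % d).toNat : ℤ)) = m (x % d).toNat * x - r (x % d).toNat := by
    ring
  rwa [h6] at h5

/-- number of nonzero letters -/
def nz (d : ℕ) (m r : ℕ → ℤ) (k : ℕ) (x : ℤ) : ℕ :=
  ((wd d m r k x).filter (fun i => i ≠ 0)).length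

theorem wd_add (a b : ℕ) (x : ℤ) :
    wd d m r (a + b) x = wd d m r a x ++ wd d m r b ((Tm d m r)^[a] x) := by
  induction a generalizing x with
  | zero => simp [wd]
  | succ a ih =>
    have e : a + 1 + b = (a + b) + 1 := by omega
    rw [e]
    show (x % d).toNat :: wd d m r (a + b) (Tm d m r x) = _
    rw [ih]
    rfl

theorem nz_add (a b : ℕ) (x : ℤ) :
    nz d m r (a + b) x = nz d m r a x + nz d m r b ((Tm d m r)^[a] x) := by
  unfold nz
  rw [wd_add, List.filter_append, List.length_append]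

theorem nz_mono {a b : ℕ} (hab : a ≤ b) (x : ℤ) : nz d m r a x ≤ nz d m r b x := by
  obtain ⟨c, rfl⟩ := Nat.exists_eq_add_of_le hab
  rw [nz_add]
  omega

theorem nz_one {x : ℤ} (hx : ¬ (d : ℤ) ∣ x) (h : 2 ≤ d) : nz d m r 1 x = 1 := by
  unfold nz
  have h1 : (x % d).toNat ≠ 0 := by
    intro h0
    apply hx
    have := (toNat_mod h x).1
    rw [h0] at this
    exact Int.dvd_of_emod_eq_zero this.symm
  simp [wd, h1]

theorem Tm_zero (h : Adm d m r) {μ : ℕ} (hM : Mol d μ m r) {x : ℤ} (hx : (d : ℤ) ∣ x) :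
    (d : ℤ) * Tm d m r x = x := by
  have h1 := Tm_eq h x
  have h0 : (x % d).toNat = 0 := by
    rw [Int.emod_eq_zero_of_dvd hx]; rfl
  rw [h0, hM.m0, hM.r0] at h1
  linarith

theorem Tm_run (h : Adm d m r) {μ : ℕ} (hM : Mol d μ m r) (x : ℤ) (j : ℕ)
    (hz : ∀ i < j, (d : ℤ) ∣ (Tm d m r)^[i] x) : (d : ℤ) ^ j * (Tm d m r)^[j] x = x := by
  induction j with
  | zero => simp
  | succ j ih =>
    have h1 := ih (fun i hi => hz i (by omega))
    have h2 := Tm_zero h hM (hz j (by omega))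
    rw [Function.iterate_succ_apply', pow_succ]
    calc (d : ℤ) ^ j * d * Tm d m r ((Tm d m r)^[j] x)
        = (d : ℤ) ^ j * (d * Tm d m r ((Tm d m r)^[j] x)) := by ring
      _ = (d : ℤ) ^ j * (Tm d m r)^[j] x := by rw [h2]
      _ = x := h1

/-- an orbit that misses `0` has infinitely many nonzero letters -/
theorem nz_tendsto (h : Adm d m r) {μ : ℕ} (hM : Mol d μ m r) {x : ℤ}
    (hx : ∀ k : ℕ, (Tm d m r)^[k] x ≠ 0) (B : ℕ) : ∃ t : ℕ, ∀ k : ℕ, t ≤ k → B ≤ nz d m r k x := by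
  have h2 := h.two_le
  have hinf : ∀ k₁ : ℕ, ∃ t, k₁ ≤ t ∧ ¬ (d : ℤ) ∣ (Tm d m r)^[t] x := by
    intro k₁
    by_contra hcon
    push Not at hcon
    obtain ⟨y, hy⟩ : ∃ y, y = (Tm d m r)^[k₁] x := ⟨_, rfl⟩
    have hy0 : y ≠ 0 := by rw [hy]; exact hx k₁
    have hrun : ∀ j, (d : ℤ) ^ j * (Tm d m r)^[j] y = y := by
      intro j
      apply Tm_run h hM y j
      intro i _
      rw [hy, ← Function.iterate_add_apply]
      exact hcon _ (by omega)
    have h3 : ∀ j, d ^ j ∣ y.natAbs := by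
      intro j
      rw [← Int.natCast_dvd]
      push_cast
      exact ⟨_, (hrun j).symm⟩
    have h4 := Nat.le_of_dvd (Int.natAbs_pos.2 hy0) (h3 y.natAbs)
    have h5 : y.natAbs < d ^ y.natAbs := Nat.lt_pow_self (by omega)
    omega
  have hgrow : ∀ B : ℕ, ∃ t, B ≤ nz d m r t x := by
    intro B
    induction B with
    | zero => exact ⟨0, Nat.zero_le _⟩
    | succ B ih =>
      obtain ⟨t, hB⟩ := ih
      obtain ⟨t', ht', hn⟩ := hinf t
      refine ⟨t' + 1, ?_⟩
      rw [nz_add, nz_one hn h2]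
      have := nz_mono (d := d) (m := m) (r := r) ht' x
      omega
  obtain ⟨t, ht⟩ := hgrow B
  exact ⟨t, fun k hk => ht.trans (nz_mono hk x)⟩

/-- in Möller's range `μ < 2 d` -/
theorem mu_lt (h : Adm d m r) {μ : ℕ} (hM : Mol d μ m r) : μ < 2 * d := by
  have h1 := h.contr
  have h2 := h.two_le
  rw [PP_moeller h2 hM] at h1
  by_contra hcon
  push Not at hcon
  have h3 : (2 * d) ^ (d - 1) ≤ μ ^ (d - 1) := Nat.pow_le_pow_left hcon _
  have h4 : d ≤ 2 ^ (d - 1) := by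
    have : d - 1 < 2 ^ (d - 1) := Nat.lt_pow_self (by norm_num)
    omega
  have h5 : d ^ d ≤ (2 * d) ^ (d - 1) := by
    rw [mul_pow]
    calc d ^ d = d * d ^ (d - 1) := by
          rw [← pow_succ']
          congr 1
          omega
      _ ≤ 2 ^ (d - 1) * d ^ (d - 1) := Nat.mul_le_mul_right _ h4
  omega

/-- growth of an orbit in terms of the number of nonzero letters -/
theorem growth (h : Adm d m r) {μ : ℕ} (hM : Mol d μ m r) (x : ℤ) :
    ∃ B : ℝ, 1 ≤ B ∧ ∀ k : ℕ,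
      |(((Tm d m r)^[k] x : ℤ) : ℝ)| ≤ B * (2 - 1 / (2 * d)) ^ (nz d m r k x) := by
  have h2 := h.two_le
  have hd2 : (2 : ℝ) ≤ d := by exact_mod_cast h2
  have hd0 : (0 : ℝ) < d := by linarith
  obtain ⟨R, hR⟩ : ∃ R : ℝ, R = ∑ j ∈ range d, |(r j : ℝ)| := ⟨_, rfl⟩
  have hR0 : 0 ≤ R := by rw [hR]; positivity
  have hRi : ∀ i < d, |(r i : ℝ)| ≤ R := by
    intro i hi
    rw [hR]
    exact single_le_sum (f := fun j => |(r j : ℝ)|) (fun j _ => abs_nonneg _) (mem_range.2 hi)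
  have hμ : (μ : ℝ) ≤ 2 * d - 1 := by
    have := mu_lt h hM
    have h3 : μ + 1 ≤ 2 * d := this
    have h4 : (μ : ℝ) + 1 ≤ 2 * d := by exact_mod_cast h3
    linarith
  set ρ : ℝ := 2 - 1 / (2 * d) with hρ
  have hdd : 1 / (2 * (d : ℝ)) ≤ 1 / 4 := by
    apply one_div_le_one_div_of_le <;> linarith
  have hρ1 : 1 ≤ ρ := by rw [hρ]; linarith
  refine ⟨|(x : ℝ)| + 2 * R + 1, by have := abs_nonneg (x : ℝ); linarith, ?_⟩
  set B : ℝ := |(x : ℝ)| + 2 * R + 1 with hB
  have hB1 : 1 ≤ B := by have := abs_nonneg (x : ℝ); linarith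
  intro k
  induction k with
  | zero =>
    simp only [Function.iterate_zero, id]
    have h3 : (1 : ℝ) ≤ ρ ^ (nz d m r 0 x) := one_le_pow₀ hρ1
    have h4 : |(x : ℝ)| ≤ B := by rw [hB]; linarith
    nlinarith
  | succ k ih =>
    obtain ⟨y, hy⟩ : ∃ y, y = (Tm d m r)^[k] x := ⟨_, rfl⟩
    rw [Function.iterate_succ_apply', nz_add, ← hy]
    rw [← hy] at ih
    set F : ℝ := B * ρ ^ (nz d m r k x) with hF
    have hFB : B ≤ F := by
      have h3 : (1 : ℝ) ≤ ρ ^ (nz d m r k x) := one_le_pow₀ hρ1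
      rw [hF]
      nlinarith
    have hstep := Tm_eq h y
    have hstepR : (d : ℝ) * ((Tm d m r y : ℤ) : ℝ) =
        (m (y % d).toNat : ℝ) * (y : ℝ) - (r (y % d).toNat : ℝ) := by
      exact_mod_cast hstep
    obtain ⟨e1, e2⟩ := toNat_mod h2 y
    by_cases hdy : (d : ℤ) ∣ y
    · have h3 := Tm_zero h hM hdy
      have h3R : (d : ℝ) * ((Tm d m r y : ℤ) : ℝ) = y := by exact_mod_cast h3
      have h4 : |((Tm d m r y : ℤ) : ℝ)| ≤ |(y : ℝ)| := by
        rw [← h3R, abs_mul, abs_of_pos hd0]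
        have := abs_nonneg ((Tm d m r y : ℤ) : ℝ)
        nlinarith
      have h5 : F ≤ B * ρ ^ (nz d m r k x + nz d m r 1 y) := by
        rw [hF]
        apply mul_le_mul_of_nonneg_left _ (by linarith)
        exact pow_le_pow_right₀ hρ1 (by omega)
      linarith
    · have hn := nz_one (m := m) (r := r) hdy h2
      rw [hn, pow_succ]
      have hi0 : 1 ≤ (y % d).toNat := by
        rw [Nat.one_le_iff_ne_zero]
        intro h0
        rw [h0] at e1
        exact hdy (Int.dvd_of_emod_eq_zero e1.symm)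
      rw [hM.mi _ hi0 e2] at hstepR
      have h3 : (d : ℝ) * |((Tm d m r y : ℤ) : ℝ)| ≤ (2 * d - 1) * F + R := by
        rw [← abs_of_pos hd0, ← abs_mul, abs_of_pos hd0, hstepR]
        calc |(((μ : ℕ) : ℤ) : ℝ) * (y : ℝ) - (r (y % d).toNat : ℝ)|
            ≤ |(((μ : ℕ) : ℤ) : ℝ) * (y : ℝ)| + |(r (y % d).toNat : ℝ)| := abs_sub _ _
          _ = (μ : ℝ) * |(y : ℝ)| + |(r (y % d).toNat : ℝ)| := by
              rw [abs_mul]
              congr 2
              rw [Int.cast_natCast, abs_of_nonneg (Nat.cast_nonneg _)]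
          _ ≤ (2 * d - 1) * F + R := by
              have h4 := hRi _ e2
              have h5 : (μ : ℝ) * |(y : ℝ)| ≤ (2 * d - 1) * F :=
                mul_le_mul hμ ih (abs_nonneg _) (by linarith)
              linarith
      have h4 : B * (ρ ^ (nz d m r k x) * ρ) = F * ρ := by rw [hF]; ring
      rw [h4]
      have h5 : (d : ℝ) * (F * ρ) = 2 * d * F - F / 2 := by
        rw [hρ]
        field_simp
      have h6 : (d : ℝ) * |((Tm d m r y : ℤ) : ℝ)| ≤ (d : ℝ) * (F * ρ) := by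
        rw [h5]
        have : 2 * R + 1 ≤ F := by
          refine le_trans ?_ hFB
          rw [hB]
          have := abs_nonneg (x : ℝ)
          linarith
        linarith
      exact le_of_mul_le_mul_left h6 hd0

/-- the condition of `hit` holds at all late times -/
theorem cond_all (h : Adm d m r) {μ : ℕ} (hμ : μ ≠ 0) (hM : Mol d μ m r) {x : ℤ}
    (hx : ∀ k : ℕ, (Tm d m r)^[k] x ≠ 0) (D : ℕ) (hD : 0 < D) :
    ∃ k₀ : ℕ, ∀ k : ℕ, k₀ ≤ k → ∃ s : ℕ,
      ((wd d m r k x).filter (fun i => i ≠ 0)).length = s + 1 ∧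
      ∀ q : ℕ, q.Prime → q ∣ μ →
        padicValInt q (D * (Tm d m r)^[k] x) ≤ s * padicValNat q μ := by
  have h2 := h.two_le
  have hd2 : (2 : ℝ) ≤ d := by exact_mod_cast h2
  have hd0 : (0 : ℝ) < d := by linarith
  obtain ⟨B, hB1, hB⟩ := growth h hM x
  set ρ : ℝ := 2 - 1 / (2 * d) with hρ
  have hdd : 1 / (2 * (d : ℝ)) ≤ 1 / 4 := by
    apply one_div_le_one_div_of_le <;> linarith
  have hdd0 : 0 < 1 / (2 * (d : ℝ)) := by positivity
  have hρ1 : 1 ≤ ρ := by rw [hρ]; linarith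
  have hρ0 : 0 < ρ := by linarith
  have hρ2 : ρ < 2 := by rw [hρ]; linarith
  have hgr : 1 < 2 / ρ := by rw [lt_div_iff₀ hρ0]; linarith
  obtain ⟨n, hn⟩ := pow_unbounded_of_one_lt (D * B) hgr
  obtain ⟨t, ht⟩ := nz_tendsto h hM hx (n + 1)
  refine ⟨t, fun k hk => ?_⟩
  have hnk := ht k hk
  refine ⟨nz d m r k x - 1, ?_, ?_⟩
  · show nz d m r k x = _
    omega
  · intro q hq hqμ
    have := Fact.mk hq
    by_contra hcon
    push Not at hcon
    obtain ⟨z, hz⟩ : ∃ z, z = (Tm d m r)^[k] x := ⟨_, rfl⟩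
    have hz0 : z ≠ 0 := by rw [hz]; exact hx k
    rw [← hz] at hcon
    have hv1 : 1 ≤ padicValNat q μ := one_le_padicValNat_of_dvd hμ hqμ
    have hval : nz d m r k x ≤ padicValInt q (D * z) := by
      have h3 : (nz d m r k x - 1) * 1 ≤ (nz d m r k x - 1) * padicValNat q μ :=
        Nat.mul_le_mul_left _ hv1
      omega
    have hDz : (D : ℤ) * z ≠ 0 := mul_ne_zero (by exact_mod_cast hD.ne') hz0
    have h4 : q ^ padicValInt q (D * z) ≤ ((D : ℤ) * z).natAbs :=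
      Nat.le_of_dvd (Int.natAbs_pos.2 hDz) pow_padicValNat_dvd
    have h5 : 2 ^ nz d m r k x ≤ ((D : ℤ) * z).natAbs := by
      calc 2 ^ nz d m r k x ≤ q ^ nz d m r k x := Nat.pow_le_pow_left hq.two_le _
        _ ≤ q ^ padicValInt q (D * z) := Nat.pow_le_pow_right hq.pos hval
        _ ≤ _ := h4
    have h6 : (2 : ℝ) ^ nz d m r k x ≤ D * |(z : ℝ)| := by
      have h7 : ((2 ^ nz d m r k x : ℕ) : ℝ) ≤ ((((D : ℤ) * z).natAbs : ℕ) : ℝ) := by
        exact_mod_cast h5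
      rw [Nat.cast_natAbs] at h7
      push_cast at h7
      rw [abs_mul, abs_of_nonneg (show (0 : ℝ) ≤ (D : ℝ) from Nat.cast_nonneg _)] at h7
      exact h7
    have h7 := hB k
    rw [← hz] at h7
    have hDR : (0 : ℝ) < D := by exact_mod_cast hD
    have h8 : (2 : ℝ) ^ nz d m r k x ≤ D * B * ρ ^ nz d m r k x := by
      refine h6.trans ?_
      calc (D : ℝ) * |(z : ℝ)| ≤ D * (B * ρ ^ nz d m r k x) := by gcongr
        _ = D * B * ρ ^ nz d m r k x := by ring
    have h9 : (2 / ρ) ^ nz d m r k x ≤ D * B := by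
      rw [div_pow, div_le_iff₀ (by positivity)]
      exact h8
    have h10 : (2 / ρ) ^ n ≤ (2 / ρ) ^ nz d m r k x := pow_le_pow_right₀ hgr.le (by omega)
    linarith

/-- An invariant set that contains a point whose trajectory is on the side `σ` infinitely often does
not have density zero on the side `σ`. -/
theorem pos_side (h : Adm d m r) {μ : ℕ} (hμ : 2 ≤ μ) (hM : Mol d μ m r) {S : Set ℤ}
    (hS : Inv d m r S) {x : ℤ} (hxS : x ∈ S) (hx : ∀ k : ℕ, (Tm d m r)^[k] x ≠ 0)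
    {σ : ℤ} (hσ : σ = 1 ∨ σ = -1) (hside : ∀ k₀ : ℕ, ∃ k, k₀ ≤ k ∧ 0 < σ * (Tm d m r)^[k] x) :
    ¬ Tendsto (fun X : ℝ => G S σ X / X) atTop (𝓝 0) := by
  obtain ⟨N, y₀, C0, hN, hC0, H⟩ := pos_general h
  obtain ⟨D, hD, hh⟩ := hit h hM
  obtain ⟨k₀, hk₀⟩ := cond_all h (by omega) hM hx D hD
  obtain ⟨k, hk, hpos⟩ := hside k₀
  obtain ⟨s, hlen, hv⟩ := hk₀ k hk
  obtain ⟨z', hz'S, hdvd, hbig, hsign, hnp⟩ := hh S hS x hxS k s _ rfl (hx k) hlen hv
    ((d - 1) * N) y₀ C0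
  have hdvd' : (PP d m : ℤ) ^ N ∣ z' - y₀ := by
    rw [PP_moeller h.two_le hM, Nat.cast_pow, ← pow_mul]
    exact hdvd
  refine (H S hS z' hz'S hdvd' hbig hnp).2 ?_ σ hσ ?_
  · intro i hi
    rcases Nat.eq_zero_or_pos i with h0 | h0
    · rw [h0, hM.m0]
      exact one_pos
    · rw [hM.mi i h0 hi]
      exact_mod_cast (by omega : 0 < μ)
  · set z := (Tm d m r)^[k] x
    rcases hσ with rfl | rfl
    · rw [one_mul] at hpos ⊢
      exact (mul_pos_iff_of_pos_left hpos).1 hsign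
    · have h1 : z < 0 := by linarith
      have h2 : z' < 0 := by
        by_contra h3
        push Not at h3
        have := mul_nonpos_of_nonpos_of_nonneg h1.le h3
        omega
      linarith

end Pool.Agent.W39
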