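import Pool.Agent.W39.MolCond
import Pool.Agent.H319R3.DN.T13
import Pool.Agent.H319R2.GMoller2

/-! Möller maps with arbitrary admissible offsets: positive natural densities of invariant sets. -/

set_option autoImplicit false

namespace Pool.Agent.W39
open Pool.Agent.H319R3.GC Pool.Agent.H319R3.DN Pool.Agent.H319R3.PO Finset Filter Topology

/-- the map `T(n) = n / d` if `d ∣ n` and `(m n - r_j) / d` if `n ≡ j mod d`, `1 ≤ j < d` -/
def TM (d m : ℕ) (r : ℤ → ℤ) (n : ℤ) : ℤ :=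
  if (d : ℤ) ∣ n then n / d else (m * n - r (n % d)) / d

/-- multipliers -/
def mm' (m : ℕ) : ℕ → ℤ := fun i => if i = 0 then 1 else (m : ℤ)

/-- offsets -/
def rr' (r : ℤ → ℤ) : ℕ → ℤ := fun i => if i = 0 then 0 else r i

theorem TM_eq (d m : ℕ) (hd : 2 ≤ d) (r : ℤ → ℤ) : TM d m r = Tm d (mm' m) (rr' r) := by
  funext n
  unfold TM Tm
  have hn0 : 0 ≤ n % (d : ℤ) := Int.emod_nonneg _ (by omega)
  by_cases h : (d : ℤ) ∣ n
  · have h1 : (n % (d : ℤ)).toNat = 0 := by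
      rw [Int.emod_eq_zero_of_dvd h]; rfl
    rw [if_pos h, h1]
    simp [mm', rr']
  · have h1 : (n % (d : ℤ)).toNat ≠ 0 := by
      intro h2
      apply h
      apply Int.dvd_of_emod_eq_zero
      omega
    have h2 : (((n % (d : ℤ)).toNat : ℕ) : ℤ) = n % d := Int.toNat_of_nonneg hn0
    rw [if_neg h]
    simp only [mm', rr', h1, if_false, h2]

theorem mol (d m : ℕ) (r : ℤ → ℤ) : Mol d m (mm' m) (rr' r) := by
  refine ⟨by simp [mm'], by simp [rr'], ?_⟩
  intro i hi1 _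
  have : i ≠ 0 := by omega
  simp [mm', this]

theorem adm {d m : ℕ} (hd : 2 ≤ d) (hm : 2 ≤ m) (hc : Nat.Coprime m d)
    (hle : (m : ℝ) ≤ (d : ℝ) ^ ((d : ℝ) / ((d : ℝ) - 1))) {r : ℤ → ℤ}
    (hr : ∀ j : ℤ, 0 < j → j < (d : ℤ) → r j ≡ (m : ℤ) * j [ZMOD (d : ℤ)]) :
    Adm d (mm' m) (rr' r) := by
  refine ⟨hd, ?_, ?_, ?_, ?_⟩
  · intro i _
    simp only [mm']
    split_ifs
    · exact isCoprime_one_left
    · exact Nat.isCoprime_iff_coprime.2 hc
  · intro i hi
    simp only [mm', rr']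
    split_ifs with h0
    · subst h0; simp
    · exact (hr i (by exact_mod_cast Nat.pos_of_ne_zero h0) (by exact_mod_cast hi)).dvd
  · rw [PP_moeller hd (mol d m r)]
    have h3 := Pool.Agent.H319R2.Moller.pow_le_of_rpow (d := d) (m := m) hd hle
    refine lt_of_le_of_ne h3 ?_
    intro h4
    have h5 : Nat.Coprime (m ^ (d - 1)) (d ^ d) := Nat.Coprime.pow _ _ hc
    rw [h4, Nat.coprime_self] at h5
    have : 1 < d ^ d := Nat.one_lt_pow (by omega) (by omega)
    omega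
  · rw [PP_moeller hd (mol d m r)]
    calc 2 ≤ m := hm
      _ = m ^ 1 := (pow_one m).symm
      _ ≤ m ^ (d - 1) := Nat.pow_le_pow_right (by omega) (by omega)

/-- natural density of `S` on the side `σ` -/
def HasDens (S : Set ℤ) (σ : ℤ) (δ : ℝ) : Prop :=
  Tendsto (fun N : ℕ => (Set.ncard {x : ℤ | x ∈ S ∧ 1 ≤ σ * x ∧ σ * x ≤ N} : ℝ) / N) atTop (𝓝 δ)

/-- Every invariant set that contains a point whose trajectory misses `0` and is on the side `σ`
infinitely often has a positive natural density on the side `σ`. -/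
theorem dens_pos {d m : ℕ} (hd : 2 ≤ d) (hm : 2 ≤ m) (hc : Nat.Coprime m d)
    (hle : (m : ℝ) ≤ (d : ℝ) ^ ((d : ℝ) / ((d : ℝ) - 1))) {r : ℤ → ℤ}
    (hr : ∀ j : ℤ, 0 < j → j < (d : ℤ) → r j ≡ (m : ℤ) * j [ZMOD (d : ℤ)]) {S : Set ℤ}
    (hS : ∀ x : ℤ, x ∈ S ↔ TM d m r x ∈ S) {x : ℤ} (hxS : x ∈ S)
    (hx : ∀ k : ℕ, (TM d m r)^[k] x ≠ 0) {σ : ℤ} (hσ : σ = 1 ∨ σ = -1)
    (hside : ∀ k₀ : ℕ, ∃ k, k₀ ≤ k ∧ 0 < σ * (TM d m r)^[k] x) :
    ∃ δ : ℝ, 0 < δ ∧ HasDens S σ δ := by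
  rw [TM_eq d m hd r] at hS hx hside
  have hA := adm hd hm hc hle hr
  have hM := mol d m r
  have hij' : ((mm' m) 0).natAbs ≠ ((mm' m) 1).natAbs := by
    simp [mm']
    omega
  obtain ⟨l, hl, -⟩ := density hA (by omega : 0 < d) (by omega : 1 < d) hij' (S := S) hS
  have h1 := hl σ hσ
  have hGN : ∀ N : ℕ, G S σ ((N : ℝ) + 1) =
      (Set.ncard {x : ℤ | x ∈ S ∧ 1 ≤ σ * x ∧ σ * x ≤ N} : ℝ) := by
    intro N
    unfold G
    congr 2
    ext x
    simp only [Set.mem_ofPred_eq]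
    constructor
    · rintro ⟨g1, g2, g3⟩
      refine ⟨g1, by omega, ?_⟩
      have h4 : (σ * x : ℤ) < (N : ℤ) + 1 := by exact_mod_cast g3
      omega
    · rintro ⟨g1, g2, g3⟩
      refine ⟨g1, by omega, ?_⟩
      have h4 : (σ * x : ℤ) < (N : ℤ) + 1 := by omega
      exact_mod_cast h4
  have hdens : HasDens S σ (l σ) := by
    unfold HasDens
    have g1 : Tendsto (fun N : ℕ => ((N : ℝ) + 1)) atTop atTop :=
      tendsto_atTop_add_const_right _ _ tendsto_natCast_atTop_atTop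
    have g2 := h1.comp g1
    have g3 : Tendsto (fun N : ℕ => ((N : ℝ) + 1) / N) atTop (𝓝 1) := by
      have g4 : Tendsto (fun N : ℕ => 1 + 1 / (N : ℝ)) atTop (𝓝 (1 + 0)) :=
        tendsto_const_nhds.add tendsto_one_div_atTop_nhds_zero_nat
      rw [add_zero] at g4
      refine g4.congr' ?_
      filter_upwards [eventually_gt_atTop 0] with N hN
      have : (0 : ℝ) < N := by exact_mod_cast hN
      field_simp
    have g5 := g2.mul g3
    rw [mul_one] at g5
    refine g5.congr' ?_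
    filter_upwards [eventually_gt_atTop 0] with N hN
    have : (0 : ℝ) < N := by exact_mod_cast hN
    simp only [Function.comp]
    rw [hGN N]
    field_simp
  have h0 : 0 ≤ l σ := ge_of_tendsto' hdens (fun N => by positivity)
  have hne : l σ ≠ 0 := by
    intro h2
    rw [h2] at h1
    exact pos_side hA hm hM hS hxS hx hσ hside h1
  exact ⟨l σ, lt_of_le_of_ne h0 (Ne.symm hne), hdens⟩

end Pool.Agent.W39
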